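import Mathlib

/-!
# Definable order-preserving maps (helper215, project PO, MP_b47165_lc, S15259): statements
-/

set_option autoImplicit false

namespace Pool.Agent.Y215.PO

open FirstOrder FirstOrder.Language

/-- job PO-K: a countable linear order `E` with functions `g1 g2 g3` such that every binary relation
on `E` is coded by a lower set -/
def S_K : Prop := ∃ (E : Type) (_ : LinearOrder E) (_ : Countable E) (_ : Infinite E)
  (g1 g2 g3 : E → E), ∀ S : Set (E × E), ∃ x : Set E, (∀ a b : E, a ≤ b → b ∈ x → a ∈ x) ∧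
    ∀ p : E × E, p ∈ S ↔ ∃ F : E, F ∈ x ∧ g3 F ∉ x ∧ (g1 F, g2 F) = p

/-- definable predicates of assignments of the variables `0, 1, 2, ...` -/
def DP (M : Type) [Language.order.Structure M] (R : (ℕ → M) → Prop) : Prop :=
  (Set.univ : Set M).Definable Language.order {v : ℕ → M | R v}

/-- job PO-LOG: closure properties of definable predicates -/
def S_LOG : Prop := ∀ (M : Type) (_ : PartialOrder M) (_ : Language.order.Structure M)
  (_ : Language.order.OrderedStructure M),
  (∀ i j : ℕ, DP M (fun v => v i ≤ v j)) ∧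
  (∀ (i : ℕ) (c : M), DP M (fun v => v i ≤ c)) ∧
  (∀ (i : ℕ) (c : M), DP M (fun v => c ≤ v i)) ∧
  (∀ R R' : (ℕ → M) → Prop, DP M R → DP M R' → DP M (fun v => R v ∧ R' v)) ∧
  (∀ R : (ℕ → M) → Prop, DP M R → DP M (fun v => ¬ R v)) ∧
  (∀ (R : (ℕ → M) → Prop) (i : ℕ), DP M R → DP M (fun v => ∃ m : M, R (Function.update v i m))) ∧
  (∀ (R : (ℕ → M) → Prop) (s : ℕ → ℕ), DP M R → DP M (fun v => R (fun n => v (s n)))) ∧
  (∀ f : M → M, DP M (fun v => f (v 0) = v 1) →
    (Set.univ : Set M).Definable Language.order {v : Fin 2 → M | f (v 0) = v 1})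

end Pool.Agent.Y215.PO
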